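import Pool.Agent.Helper4.P11.StD

/-!
# Project P11, module CeA: the finite certificates CEG, CEU
-/

set_option autoImplicit false
set_option maxRecDepth 1000000

namespace Pool.Agent.Helper88.P11

open Pool.Agent.Helper4.P11 Pool.Agent.Helper84.P11

/-- Certificate CEG. -/
theorem hCeG : TCeG := by
  unfold TCeG
  decide +kernel

private theorem u00 : ∀ w : Fin 10, ∀ t ∈ M13, t.1 + 10 * t.2.1 + t.2.2 ≤ 2 →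
    (11 : ℤ) ∣ cS (BUM 0 0) w t.1 t.2.1 t.2.2 -
      (if (0 : Fin 3) = 0 ∧ w = 0 ∧ t = (1, 0, 1) then 1 else 0) := by decide +kernel

private theorem u01 : ∀ w : Fin 10, ∀ t ∈ M13, t.1 + 10 * t.2.1 + t.2.2 ≤ 2 →
    (11 : ℤ) ∣ cS (BUM 0 1) w t.1 t.2.1 t.2.2 -
      (if (0 : Fin 3) = 1 ∧ w = 0 ∧ t = (1, 0, 1) then 1 else 0) := by decide +kernel

private theorem u02 : ∀ w : Fin 10, ∀ t ∈ M13, t.1 + 10 * t.2.1 + t.2.2 ≤ 2 →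
    (11 : ℤ) ∣ cS (BUM 0 2) w t.1 t.2.1 t.2.2 -
      (if (0 : Fin 3) = 2 ∧ w = 0 ∧ t = (1, 0, 1) then 1 else 0) := by decide +kernel

private theorem u10 : ∀ w : Fin 10, ∀ t ∈ M13, t.1 + 10 * t.2.1 + t.2.2 ≤ 2 →
    (11 : ℤ) ∣ cS (BUM 1 0) w t.1 t.2.1 t.2.2 -
      (if (1 : Fin 3) = 0 ∧ w = 0 ∧ t = (1, 0, 1) then 1 else 0) := by decide +kernel

private theorem u11 : ∀ w : Fin 10, ∀ t ∈ M13, t.1 + 10 * t.2.1 + t.2.2 ≤ 2 →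
    (11 : ℤ) ∣ cS (BUM 1 1) w t.1 t.2.1 t.2.2 -
      (if (1 : Fin 3) = 1 ∧ w = 0 ∧ t = (1, 0, 1) then 1 else 0) := by decide +kernel

private theorem u12 : ∀ w : Fin 10, ∀ t ∈ M13, t.1 + 10 * t.2.1 + t.2.2 ≤ 2 →
    (11 : ℤ) ∣ cS (BUM 1 2) w t.1 t.2.1 t.2.2 -
      (if (1 : Fin 3) = 2 ∧ w = 0 ∧ t = (1, 0, 1) then 1 else 0) := by decide +kernel

private theorem u20 : ∀ w : Fin 10, ∀ t ∈ M13, t.1 + 10 * t.2.1 + t.2.2 ≤ 2 →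
    (11 : ℤ) ∣ cS (BUM 2 0) w t.1 t.2.1 t.2.2 -
      (if (2 : Fin 3) = 0 ∧ w = 0 ∧ t = (1, 0, 1) then 1 else 0) := by decide +kernel

private theorem u21 : ∀ w : Fin 10, ∀ t ∈ M13, t.1 + 10 * t.2.1 + t.2.2 ≤ 2 →
    (11 : ℤ) ∣ cS (BUM 2 1) w t.1 t.2.1 t.2.2 -
      (if (2 : Fin 3) = 1 ∧ w = 0 ∧ t = (1, 0, 1) then 1 else 0) := by decide +kernel

private theorem u22 : ∀ w : Fin 10, ∀ t ∈ M13, t.1 + 10 * t.2.1 + t.2.2 ≤ 2 →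
    (11 : ℤ) ∣ cS (BUM 2 2) w t.1 t.2.1 t.2.2 -
      (if (2 : Fin 3) = 2 ∧ w = 0 ∧ t = (1, 0, 1) then 1 else 0) := by decide +kernel

/-- Certificate CEU. -/
theorem hCeU : TCeU := fun i f =>
  match i, f with
  | 0, 0 => u00
  | 0, 1 => u01
  | 0, 2 => u02
  | 1, 0 => u10
  | 1, 1 => u11
  | 1, 2 => u12
  | 2, 0 => u20
  | 2, 1 => u21
  | 2, 2 => u22

end Pool.Agent.Helper88.P11
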